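import Pool.Agent.W312.WT.Stm
import Pool.Agent.W312.WT.Lem

/-! Project WT (helper312): the cheapest entry, pruning. -/

set_option autoImplicit false

namespace Pool.Agent.W591.WT

open Pool.Agent.W312.WT

theorem foldl_mem : ∀ (l : List Ent) (o : Option Ent) (f : Ent),
    l.foldl better o = some f → o = some f ∨ f ∈ l := by
  intro l
  induction l with
  | nil => intro o f h; exact Or.inl h
  | cons x l ih =>
    intro o f h
    rw [List.foldl_cons] at h
    rcases ih _ _ h with h1 | h1
    · cases o with
      | none =>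
        simp only [better] at h1
        right
        rw [Option.some.inj h1]
        exact List.mem_cons_self
      | some g =>
        simp only [better] at h1
        split_ifs at h1 with h2
        · right
          rw [Option.some.inj h1]
          exact List.mem_cons_self
        · exact Or.inl h1
    · exact Or.inr (List.mem_cons_of_mem _ h1)

theorem foldl_le : ∀ (l : List Ent) (o : Option Ent) (e : Ent), (o = some e ∨ e ∈ l) →
    ∃ f, l.foldl better o = some f ∧ cst f.2 ≤ cst e.2 := by
  intro l
  induction l with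
  | nil =>
    intro o e h
    rcases h with h | h
    · exact ⟨e, h, le_rfl⟩
    · simp at h
  | cons x l ih =>
    intro o e h
    rw [List.foldl_cons]
    rcases h with h | h
    · subst h
      simp only [better]
      split_ifs with h2
      · obtain ⟨f, hf1, hf2⟩ := ih (some x) x (Or.inl rfl)
        exact ⟨f, hf1, hf2.trans h2.le⟩
      · exact ih (some e) e (Or.inl rfl)
    · rcases List.mem_cons.1 h with rfl | h
      · cases o with
        | none =>
          simp only [better]
          exact ih (some e) e (Or.inl rfl)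
        | some g =>
          simp only [better]
          split_ifs with h2
          · exact ih (some e) e (Or.inl rfl)
          · obtain ⟨f, hf1, hf2⟩ := ih (some g) g (Or.inl rfl)
            exact ⟨f, hf1, hf2.trans (not_lt.1 h2)⟩
      · exact ih _ e (Or.inr h)

theorem proof_SBst : SBst := by
  refine ⟨fun l f h => ?_, fun l e he => foldl_le l none e (Or.inr he)⟩
  rcases foldl_mem l none f h with h1 | h1
  · cases h1
  · exact h1

theorem mem_prs (l : List ℕ) (q : ℕ × ℕ) : q ∈ prs l ↔ q.1 ∈ l ∧ q.2 ∈ l := by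
  obtain ⟨a, b⟩ := q
  simp only [prs, List.mem_flatMap, List.mem_map, Prod.mk.injEq]
  constructor
  · rintro ⟨x, hx, y, hy, rfl, rfl⟩
    exact ⟨hx, hy⟩
  · rintro ⟨ha, hb⟩
    exact ⟨a, ha, b, hb, rfl, rfl⟩

theorem mem_keys (n : ℕ) (cand th : List ℕ) (h s a : ℕ × ℕ) (h1 : h.1 ∈ th) (h2 : h.2 ∈ th)
    (h3 : s.1 ≤ n) (h4 : s.2 ≤ n) (h5 : a.1 ∈ cand) (h6 : a.2 ∈ cand) :
    (h, s, a) ∈ keys n cand th := by
  simp only [keys, List.mem_flatMap, List.mem_map]
  refine ⟨h, (mem_prs _ _).2 ⟨h1, h2⟩, s, (mem_prs _ _).2 ⟨?_, ?_⟩, a, (mem_prs _ _).2 ⟨h5, h6⟩, rfl⟩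
  · exact List.mem_range.2 (by omega)
  · exact List.mem_range.2 (by omega)

theorem proof_STab : STab := by
  intro hB
  refine ⟨?_, ?_⟩
  · intro U T e he
    simp only [tabE, List.mem_flatMap] at he
    obtain ⟨k, hk, he⟩ := he
    have h1 := hB.1 _ _ (Option.mem_toList.1 he)
    rw [List.mem_filter] at h1
    have h2 : e.1 = k := by simpa using h1.2
    exact ⟨h1.1, h2 ▸ hk⟩
  · intro p n cand th P T hC h₁ hh₁ h₂ hh₂ hle s a ha l hperm hlen hcand hchn
    obtain ⟨e, heT, hek, hec⟩ := hC h₁ hh₁ h₂ hh₂ hle s a ha l hperm hlen hcand hchn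
    have h1 : e ∈ T.filter fun e' => decide (e'.1 = e.1) := by
      rw [List.mem_filter]
      exact ⟨heT, by simp⟩
    obtain ⟨f, hf1, hf2⟩ := hB.2 _ e h1
    have h2 := hB.1 _ _ hf1
    rw [List.mem_filter] at h2
    have h3 : f.1 = e.1 := by simpa using h2.2
    have hkey : e.1 ∈ keys n cand th := by
      rw [hek]
      refine mem_keys n cand th (h₁, h₂) (s, s + l.length) (a, lastT a (l.map Prod.snd)) hh₁ hh₂
        (by simp only; omega) hlen ha ?_
      simp only
      rcases List.mem_cons.1 (lastT_mem (l.map Prod.snd) a) with h4 | h4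
      · rw [h4]
        exact ha
      · obtain ⟨q, hq1, hq2⟩ := List.mem_map.1 h4
        rw [← hq2]
        exact hcand q hq1
    refine ⟨f, ?_, h3.trans hek, hf2.trans hec⟩
    simp only [tabE, List.mem_flatMap]
    exact ⟨e.1, hkey, Option.mem_toList.2 hf1⟩

end Pool.Agent.W591.WT
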